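import Pool.Agent.H66.TK.Stm

set_option autoImplicit false

set_option linter.unusedSectionVars false
set_option linter.unusedSimpArgs false

namespace Pool.Agent.H31.TK

open Pool.Agent.H66.TK

section alg

variable {K : Type} [Field K]

/-- the coefficients in the reversed order -/
def rv {k : ℕ} {R : Type} (α : Fin k → R) : Fin k → R := fun i => α i.rev

theorem q2_sc (c : Fin 3 → K) (y : Fin 2 → K) (κ : K) (hκ : κ ≠ 0) :
    q2 c (fun i => y i / κ) = q2 c y / κ ^ 2 := by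
  unfold q2
  field_simp

theorem q3_sc (c : Fin 4 → K) (y : Fin 2 → K) (κ : K) (hκ : κ ≠ 0) :
    q3 c (fun i => y i / κ) = q3 c y / κ ^ 3 := by
  unfold q3
  field_simp

theorem ax_sc (a : Fin 3 → Fin 3 → K) (y : Fin 2 → K) (κ : K) (hκ : κ ≠ 0) :
    ax a (fun i => y i / κ) = fun i => ax a y i / κ ^ 2 :=
  funext fun i => q2_sc (a i) y κ hκ

theorem bx_sc (b : Fin 4 → Fin 4 → K) (y : Fin 2 → K) (κ : K) (hκ : κ ≠ 0) :
    bx b (fun i => y i / κ) = fun i => bx b y i / κ ^ 3 :=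
  funext fun i => q3_sc (b i) y κ hκ

theorem cub_sc (α : Fin 3 → K) (β : Fin 4 → K) (w κ : K) (hκ : κ ≠ 0) (x : Fin 2 → K) :
    cub (fun i => α i / κ ^ 2) (fun i => β i / κ ^ 3) (w / κ) x = cub α β w x / κ ^ 3 := by
  unfold cub q2 q3
  field_simp

theorem cw_sc (α : Fin 3 → K) (w κ : K) (hκ : κ ≠ 0) (x : Fin 2 → K) :
    cw (fun i => α i / κ ^ 2) (w / κ) x = cw α w x / κ ^ 2 := by
  unfold cw q2
  field_simp

theorem c0_sc (α : Fin 3 → K) (β : Fin 4 → K) (w κ : K) (hκ : κ ≠ 0) (x : Fin 2 → K) :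
    c0 (fun i => α i / κ ^ 2) (fun i => β i / κ ^ 3) (w / κ) x = c0 α β w x / κ ^ 3 := by
  unfold c0
  field_simp

theorem c1_sc (α : Fin 3 → K) (β : Fin 4 → K) (w κ : K) (hκ : κ ≠ 0) (x : Fin 2 → K) :
    c1 (fun i => α i / κ ^ 2) (fun i => β i / κ ^ 3) (w / κ) x = c1 α β w x / κ ^ 3 := by
  unfold c1
  field_simp

theorem mm_sc (α : Fin 3 → K) (β : Fin 4 → K) (w κ : K) (hκ : κ ≠ 0) (x : Fin 2 → K) (u v : K) :
    mm (fun i => α i / κ ^ 2) (fun i => β i / κ ^ 3) (w / κ) x (u / κ ^ 3) (v / κ ^ 2) =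
      mm α β w x u v / κ ^ 7 := by
  unfold mm
  field_simp

theorem nn_sc (α : Fin 3 → K) (β : Fin 4 → K) (κ : K) (hκ : κ ≠ 0) (u v : K) :
    nn (fun i => α i / κ ^ 2) (fun i => β i / κ ^ 3) (u / κ ^ 3) (v / κ ^ 2) =
      nn α β u v / κ ^ 9 := by
  unfold nn
  field_simp

theorem DD_sc (α : Fin 3 → K) (β : Fin 4 → K) (w κ : K) (hκ : κ ≠ 0) (x : Fin 2 → K) :
    DD (fun i => α i / κ ^ 2) (fun i => β i / κ ^ 3) (w / κ) x = DD α β w x / κ ^ 7 := by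
  unfold DD
  rw [c1_sc α β w κ hκ, cw_sc α w κ hκ, ← neg_div, mm_sc α β w κ hκ]

theorem NN_sc (α : Fin 3 → K) (β : Fin 4 → K) (w κ : K) (hκ : κ ≠ 0) (x : Fin 2 → K) :
    NN (fun i => α i / κ ^ 2) (fun i => β i / κ ^ 3) (w / κ) x = NN α β w x / κ ^ 9 := by
  unfold NN
  rw [c1_sc α β w κ hκ, cw_sc α w κ hκ, ← neg_div, nn_sc α β κ hκ]

theorem rv0 (α : Fin 3 → K) : rv α 0 = α 2 := rfl
theorem rv1 (α : Fin 3 → K) : rv α 1 = α 1 := rfl
theorem rv2 (α : Fin 3 → K) : rv α 2 = α 0 := rfl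
theorem rv30 (α : Fin 4 → K) : rv α 0 = α 3 := rfl
theorem rv31 (α : Fin 4 → K) : rv α 1 = α 2 := rfl
theorem rv32 (α : Fin 4 → K) : rv α 2 = α 1 := rfl
theorem rv33 (α : Fin 4 → K) : rv α 3 = α 0 := rfl

theorem cub_rv (α : Fin 3 → K) (β : Fin 4 → K) (w t : K) (ht : t ≠ 0) :
    cub (rv α) (rv β) (w / t) ![1, 1 / t] = cub α β w ![1, t] / t ^ 3 := by
  simp only [cub, q2, q3, rv0, rv1, rv2, rv30, rv31, rv32, rv33, Matrix.cons_val_zero,
    Matrix.cons_val_one]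
  field_simp
  ring

theorem cw_rv (α : Fin 3 → K) (w t : K) (ht : t ≠ 0) :
    cw (rv α) (w / t) ![1, 1 / t] = cw α w ![1, t] / t ^ 2 := by
  simp only [cw, q2, rv0, rv1, rv2, Matrix.cons_val_zero, Matrix.cons_val_one]
  field_simp
  ring

theorem c1_rv (α : Fin 3 → K) (β : Fin 4 → K) (w t : K) (ht : t ≠ 0) :
    c1 (rv α) (rv β) (w / t) ![1, 1 / t] = c0 α β w ![1, t] / t ^ 2 := by
  simp only [c1, c0, rv0, rv1, rv2, rv30, rv31, rv32, rv33, Matrix.cons_val_zero,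
    Matrix.cons_val_one]
  field_simp
  ring

theorem b0_eq (α : Fin 3 → K) (β : Fin 4 → K) (w t : K) (h : cub α β w ![1, t] = 0) :
    β 0 = -(w ^ 3 + (α 0 + α 1 * t + α 2 * t ^ 2) * w + β 1 * t + β 2 * t ^ 2 + β 3 * t ^ 3) := by
  simp only [cub, q2, q3, Matrix.cons_val_zero, Matrix.cons_val_one] at h
  linear_combination h

theorem DD_rv (α : Fin 3 → K) (β : Fin 4 → K) (w t : K) (ht : t ≠ 0)
    (h : cub α β w ![1, t] = 0) :
    DD (rv α) (rv β) (w / t) ![1, 1 / t] = DD α β w ![1, t] / t ^ 3 := by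
  have hb := b0_eq α β w t h
  simp only [DD, mm, c1, cw, q2, rv0, rv1, rv2, rv30, rv31, rv32, rv33, Matrix.cons_val_zero,
    Matrix.cons_val_one, hb]
  field_simp
  ring

theorem NN_rv (α : Fin 3 → K) (β : Fin 4 → K) (w t : K) (ht : t ≠ 0)
    (h : cub α β w ![1, t] = 0) :
    NN (rv α) (rv β) (w / t) ![1, 1 / t] =
      -NN α β w ![1, t] / t ^ 3 + cw α w ![1, t] * DD α β w ![1, t] / t ^ 4 := by
  have hb := b0_eq α β w t h
  simp only [NN, nn, DD, mm, c1, cw, q2, rv0, rv1, rv2, rv30, rv31, rv32, rv33,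
    Matrix.cons_val_zero, Matrix.cons_val_one, hb]
  field_simp
  ring

theorem euler (α : Fin 3 → K) (β : Fin 4 → K) (w t : K) (h : cub α β w ![1, t] = 0) :
    w * cw α w ![1, t] + c0 α β w ![1, t] + t * c1 α β w ![1, t] = 0 := by
  simp only [cub, cw, c0, c1, q2, q3, Matrix.cons_val_zero, Matrix.cons_val_one] at h ⊢
  linear_combination 3 * h

end alg

end Pool.Agent.H31.TK
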