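import Pool.Agent.H66.TK.Stm

/-!
# Project TK, part BDW: the coordinate `w` is bounded; systems of constants
-/

set_option autoImplicit false

open Height AdmissibleAbsValues

namespace Pool.Agent.H31.TK

open Pool.Agent.H66.TK

section cst

variable {K : Type} [Field K] [NumberField K]

theorem cst_mul {C C' : AbsoluteValue K ℝ → ℝ} (h : Cst C) (h' : Cst C') :
    Cst (fun v => C v * C' v) := by
  refine ⟨fun v => one_le_mul_of_one_le_of_one_le (h.one_le v) (h'.one_le v), ?_⟩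
  refine (h.fin.union h'.fin).subset ?_
  rintro v ⟨hv, hne⟩
  by_cases h1 : C v = 1
  · right
    refine ⟨hv, fun h2 => hne ?_⟩
    rw [h1, h2, one_mul]
  · left
    exact ⟨hv, h1⟩

theorem cst_one : Cst (fun _ : AbsoluteValue K ℝ => (1 : ℝ)) :=
  ⟨fun _ => le_rfl, by simp⟩

theorem cst_pow {C : AbsoluteValue K ℝ → ℝ} (h : Cst C) (n : ℕ) : Cst (fun v => C v ^ n) := by
  induction n with
  | zero => simpa using cst_one
  | succ n ih =>
    simp only [pow_succ]
    exact cst_mul ih h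

theorem cst_elt (x : K) : Cst (fun v : AbsoluteValue K ℝ => max 1 (v x)) := by
  refine ⟨fun v => le_max_left _ _, ?_⟩
  by_cases hx : x = 0
  · subst hx
    simp
  · have h1 : (Function.mulSupport (fun v : nonarchAbsVal (K := K) => v.val x)).Finite :=
      hasFiniteMulSupport hx
    refine (h1.image Subtype.val).subset ?_
    rintro v ⟨hv, hne⟩
    refine ⟨⟨v, hv⟩, ?_, rfl⟩
    rw [Function.mem_mulSupport]
    intro h2
    apply hne
    have h3 : v x = 1 := h2
    simp only [h3, max_self]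

theorem cst_prod {ι : Type} (s : Finset ι) (C : ι → AbsoluteValue K ℝ → ℝ)
    (h : ∀ i, Cst (C i)) : Cst (fun v => ∏ i ∈ s, C i v) := by
  classical
  induction s using Finset.induction_on with
  | empty => simpa using cst_one
  | insert i s his ih =>
    simp only [Finset.prod_insert his]
    exact cst_mul (h i) ih

theorem le_prod_of_one_le {ι : Type} (s : Finset ι) (f : ι → ℝ) (h : ∀ i, 1 ≤ f i) (i : ι)
    (hi : i ∈ s) : f i ≤ ∏ j ∈ s, f j := by
  classical
  rw [← Finset.mul_prod_erase s f hi]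
  have h1 : 1 ≤ ∏ j ∈ s.erase i, f j := by
    have : ∏ j ∈ s.erase i, (1 : ℝ) ≤ ∏ j ∈ s.erase i, f j :=
      Finset.prod_le_prod (fun _ _ => zero_le_one) fun j _ => h j
    simpa using this
  have h2 := h i
  nlinarith

/-- A bound for the entries of a matrix. -/
noncomputable def mat {m n : ℕ} (a : Fin m → Fin n → K) (v : AbsoluteValue K ℝ) : ℝ :=
  ∏ i : Fin m, ∏ j : Fin n, max 1 (v (a i j))

theorem cst_mat {m n : ℕ} (a : Fin m → Fin n → K) : Cst (mat a) :=
  cst_prod _ (fun i v => ∏ j : Fin n, max 1 (v (a i j))) fun i =>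
    cst_prod _ (fun j v => max 1 (v (a i j))) fun j => cst_elt (a i j)

theorem le_mat {m n : ℕ} (a : Fin m → Fin n → K) (v : AbsoluteValue K ℝ) (i : Fin m)
    (j : Fin n) : v (a i j) ≤ mat a v := by
  have h1 : ∀ i : Fin m, 1 ≤ ∏ j : Fin n, max 1 (v (a i j)) := fun i =>
    (cst_prod Finset.univ (fun j v => max 1 (v (a i j))) fun j => cst_elt (a i j)).one_le v
  have h2 := le_prod_of_one_le Finset.univ (fun j : Fin n => max 1 (v (a i j)))
    (fun j => le_max_left _ _) j (Finset.mem_univ _)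
  have h3 := le_prod_of_one_le Finset.univ (fun i : Fin m => ∏ j : Fin n, max 1 (v (a i j))) h1 i
    (Finset.mem_univ _)
  exact ((le_max_right _ _).trans h2).trans h3

open Classical in
/-- The constant of the triangle inequality. -/
noncomputable def tc (v : AbsoluteValue K ℝ) : ℝ := if v ∈ nonarchAbsVal (K := K) then 1 else 2

theorem tc_one (v : AbsoluteValue K ℝ) : 1 ≤ tc v := by
  unfold tc
  split_ifs
  · exact le_rfl
  · norm_num

theorem cst_tc : Cst (tc (K := K)) := by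
  refine ⟨tc_one, ?_⟩
  have : {v : AbsoluteValue K ℝ | v ∈ nonarchAbsVal (K := K) ∧ tc v ≠ 1} = ∅ := by
    ext v
    simp only [Set.mem_ofPred_eq, Set.mem_empty_iff_false, iff_false, not_and, not_not]
    intro hv
    unfold tc
    rw [if_pos hv]
  rw [this]
  exact Set.finite_empty

theorem tc_add (v : AbsoluteValue K ℝ) (x y : K) : v (x + y) ≤ tc v * max (v x) (v y) := by
  unfold tc
  split_ifs with h
  · rw [one_mul]
    exact isNonarchimedean v h x y
  · have h1 := v.add_le x y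
    have h2 := le_max_left (v x) (v y)
    have h3 := le_max_right (v x) (v y)
    linarith

theorem tc_add_le (v : AbsoluteValue K ℝ) (x y : K) (B : ℝ) (hx : v x ≤ B) (hy : v y ≤ B) :
    v (x + y) ≤ tc v * B :=
  (tc_add v x y).trans (mul_le_mul_of_nonneg_left (max_le hx hy)
    (zero_le_one.trans (tc_one v)))

theorem q2_le (v : AbsoluteValue K ℝ) (c : Fin 3 → K) (x : Fin 2 → K) (m : ℝ)
    (hc : ∀ i, v (c i) ≤ m) (hx : ∀ i, v (x i) ≤ 1) : v (q2 c x) ≤ tc v ^ 2 * m := by
  have hm : 0 ≤ m := (v.nonneg _).trans (hc 0)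
  have ht := tc_one v
  have h : ∀ (i : Fin 3) (z : K), v z ≤ 1 → v (c i * z) ≤ m := by
    intro i z hz
    rw [map_mul]
    calc v (c i) * v z ≤ m * 1 := mul_le_mul (hc i) hz (v.nonneg _) hm
      _ = m := mul_one m
  have e1 : v (x 0 ^ 2) ≤ 1 := by
    rw [map_pow]; exact pow_le_one₀ (v.nonneg _) (hx 0)
  have e2 : v (x 0 * x 1) ≤ 1 := by
    rw [map_mul]; exact mul_le_one₀ (hx 0) (v.nonneg _) (hx 1)
  have e3 : v (x 1 ^ 2) ≤ 1 := by
    rw [map_pow]; exact pow_le_one₀ (v.nonneg _) (hx 1)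
  unfold q2
  have h1 := tc_add_le v _ _ m (h 0 _ e1) (h 1 _ e2)
  have h2 : m ≤ tc v * m := le_mul_of_one_le_left hm ht
  have h3 := tc_add_le v _ _ (tc v * m) h1 ((h 2 _ e3).trans h2)
  calc _ ≤ _ := h3
    _ = tc v ^ 2 * m := by ring

theorem q3_le (v : AbsoluteValue K ℝ) (c : Fin 4 → K) (x : Fin 2 → K) (m : ℝ)
    (hc : ∀ i, v (c i) ≤ m) (hx : ∀ i, v (x i) ≤ 1) : v (q3 c x) ≤ tc v ^ 3 * m := by
  have hm : 0 ≤ m := (v.nonneg _).trans (hc 0)
  have ht := tc_one v
  have h : ∀ (i : Fin 4) (z : K), v z ≤ 1 → v (c i * z) ≤ m := by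
    intro i z hz
    rw [map_mul]
    calc v (c i) * v z ≤ m * 1 := mul_le_mul (hc i) hz (v.nonneg _) hm
      _ = m := mul_one m
  have p2 : ∀ i, v (x i ^ 2) ≤ 1 := fun i => by
    rw [map_pow]; exact pow_le_one₀ (v.nonneg _) (hx i)
  have e1 : v (x 0 ^ 3) ≤ 1 := by
    rw [map_pow]; exact pow_le_one₀ (v.nonneg _) (hx 0)
  have e2 : v (x 0 ^ 2 * x 1) ≤ 1 := by
    rw [map_mul]; exact mul_le_one₀ (p2 0) (v.nonneg _) (hx 1)
  have e3 : v (x 0 * x 1 ^ 2) ≤ 1 := by
    rw [map_mul]; exact mul_le_one₀ (hx 0) (v.nonneg _) (p2 1)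
  have e4 : v (x 1 ^ 3) ≤ 1 := by
    rw [map_pow]; exact pow_le_one₀ (v.nonneg _) (hx 1)
  unfold q3
  have h1 := tc_add_le v _ _ m (h 0 _ e1) (h 1 _ e2)
  have h2 : m ≤ tc v * m := le_mul_of_one_le_left hm ht
  have h3 := tc_add_le v _ _ (tc v * m) h1 ((h 2 _ e3).trans h2)
  have h4 : tc v * m ≤ tc v * (tc v * m) :=
    le_mul_of_one_le_left (mul_nonneg (zero_le_one.trans ht) hm) ht
  have h5 := tc_add_le v _ _ (tc v * (tc v * m)) h3 (((h 3 _ e4).trans h2).trans h4)
  calc _ ≤ _ := h5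
    _ = tc v ^ 3 * m := by ring

theorem ax_le (v : AbsoluteValue K ℝ) (a : Fin 3 → Fin 3 → K) (y : Fin 2 → K)
    (hy : ∀ i, v (y i) ≤ 1) (i : Fin 3) : v (ax a y i) ≤ tc v ^ 2 * mat a v :=
  q2_le v (a i) y _ (fun j => le_mat a v i j) hy

theorem bx_le (v : AbsoluteValue K ℝ) (b : Fin 4 → Fin 4 → K) (y : Fin 2 → K)
    (hy : ∀ i, v (y i) ≤ 1) (i : Fin 4) : v (bx b y i) ≤ tc v ^ 3 * mat b v :=
  q3_le v (b i) y _ (fun j => le_mat b v i j) hy

end cst

/-- **BDW** -/
theorem bdw : S_BDW := by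
  intro K _ _ a b
  refine ⟨fun v => tc v ^ 7 * (mat a v * mat b v),
    cst_mul (cst_pow cst_tc 7) (cst_mul (cst_mat a) (cst_mat b)), ?_⟩
  intro v _ w x y hx hy hF
  have ht := tc_one v
  have ht0 : 0 ≤ tc v := zero_le_one.trans ht
  have hma := (cst_mat a).one_le v
  have hmb := (cst_mat b).one_le v
  have hma0 : 0 ≤ mat a v := zero_le_one.trans hma
  have hmb0 : 0 ≤ mat b v := zero_le_one.trans hmb
  set A := q2 (ax a y) x with hA
  set B := q3 (bx b y) x with hB
  have hAle : v A ≤ tc v ^ 6 * (mat a v * mat b v) := by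
    have h1 := q2_le v (ax a y) x _ (fun i => ax_le v a y hy i) hx
    have h2 : tc v ^ 2 * (tc v ^ 2 * mat a v) = tc v ^ 4 * mat a v := by ring
    rw [h2] at h1
    refine h1.trans ?_
    have h3 : tc v ^ 4 ≤ tc v ^ 6 := pow_le_pow_right₀ ht (by norm_num)
    have h4 : mat a v ≤ mat a v * mat b v := le_mul_of_one_le_right hma0 hmb
    exact mul_le_mul h3 h4 hma0 (by positivity)
  have hBle : v B ≤ tc v ^ 6 * (mat a v * mat b v) := by
    have h1 := q3_le v (bx b y) x _ (fun i => bx_le v b y hy i) hx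
    have h2 : tc v ^ 3 * (tc v ^ 3 * mat b v) = tc v ^ 6 * mat b v := by ring
    rw [h2] at h1
    refine h1.trans ?_
    have h4 : mat b v ≤ mat a v * mat b v := le_mul_of_one_le_left hmb0 hma
    exact mul_le_mul_of_nonneg_left h4 (by positivity)
  set M := tc v ^ 6 * (mat a v * mat b v) with hM
  have hM1 : 1 ≤ M := one_le_mul_of_one_le_of_one_le (one_le_pow₀ ht)
    (one_le_mul_of_one_le_of_one_le hma hmb)
  have hC : tc v ^ 7 * (mat a v * mat b v) = tc v * M := by
    rw [hM]; ring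
  simp only [hC]
  have hC1 : 1 ≤ tc v * M := one_le_mul_of_one_le_of_one_le ht hM1
  by_cases hw : v w ≤ 1
  · exact hw.trans hC1
  · rw [not_le] at hw
    have h1 : w ^ 3 = -(A * w + B) := by
      have : w ^ 3 + A * w + B = 0 := hF
      linear_combination this
    have h2 : v w ^ 3 = v (A * w + B) := by
      rw [← map_pow, h1, v.map_neg]
    have h3 : v (A * w) ≤ M * v w := by
      rw [map_mul]
      exact mul_le_mul_of_nonneg_right hAle (v.nonneg _)
    have h4 : v B ≤ M * v w := hBle.trans (le_mul_of_one_le_right (by linarith) hw.le)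
    have h5 := tc_add_le v _ _ _ h3 h4
    rw [← h2] at h5
    have h6 : v w ^ 2 ≤ tc v * M := by
      have h7 : v w ^ 2 * v w ≤ tc v * M * v w := by
        calc v w ^ 2 * v w = v w ^ 3 := by ring
          _ ≤ _ := h5
          _ = _ := by ring
      exact le_of_mul_le_mul_right h7 (by linarith)
    nlinarith

end Pool.Agent.H31.TK
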