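import Pool.Agent.H31.TK.Alg
import Pool.Agent.H31.TK.Bdw

/-!
# Project TK, part STR: the local inequality for the gradient
-/

set_option autoImplicit false

open Height AdmissibleAbsValues

namespace Pool.Agent.H31.TK

open Pool.Agent.H66.TK

section

variable {K : Type} [Field K]

theorem nrm (v : AbsoluteValue K ℝ) (r : K) :
    ∃ κ : K, κ ≠ 0 ∧ v κ = max 1 (v r) ∧ Nm v (fun i => (![1, r] : Fin 2 → K) i / κ) := by
  by_cases hr : v r ≤ 1
  · refine ⟨1, one_ne_zero, by rw [map_one, max_eq_left hr], ?_, 0, ?_⟩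
    · intro i
      fin_cases i
      · simp
      · simpa using hr
    · simp
  · rw [not_le] at hr
    have hr0 : r ≠ 0 := by
      intro h
      rw [h, map_zero] at hr
      linarith
    refine ⟨r, hr0, (max_eq_right hr.le).symm, ?_, 1, ?_⟩
    · intro i
      fin_cases i
      · simp only [Fin.zero_eta, Matrix.cons_val_zero, map_div₀, map_one]
        rw [div_le_one (by linarith)]
        exact hr.le
      · simp [hr0]
    · simp [hr0]

theorem noLine_rv {a : Fin 3 → Fin 3 → K} {b : Fin 4 → Fin 4 → K} (h : NoLine a b) :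
    NoLine (rv a) (rv b) := by
  intro y hy l m
  obtain ⟨x, hx⟩ := h y hy m l
  refine ⟨![x 1, x 0], fun h0 => hx ?_⟩
  rw [← h0]
  simp only [FF, cub, q2, q3, ax, bx, ex, rv, Matrix.cons_val_zero, Matrix.cons_val_one]
  have e0 : (Fin.rev (0 : Fin 3)) = 2 := rfl
  have e1 : (Fin.rev (1 : Fin 3)) = 1 := rfl
  have e2 : (Fin.rev (2 : Fin 3)) = 0 := rfl
  have f0 : (Fin.rev (0 : Fin 4)) = 3 := rfl
  have f1 : (Fin.rev (1 : Fin 4)) = 2 := rfl
  have f2 : (Fin.rev (2 : Fin 4)) = 1 := rfl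
  have f3 : (Fin.rev (3 : Fin 4)) = 0 := rfl
  rw [e0, e1, e2, f0, f1, f2, f3]
  ring

end

/-- numbers: the part `T = 1` -/
theorem numA (p q s D N R C0 C1 X : ℝ) (hp : 0 ≤ p) (hq : 0 ≤ q) (hR : 1 ≤ R)
    (hC0 : 1 ≤ C0) (hC1 : 0 ≤ C1)
    (hG : max (p / R ^ 2) (q / R ^ 3) ^ 3 ≤ C1 * max (D / R ^ 7) (N / R ^ 9))
    (hs : s ≤ C0 * max (p * R) q) (hX : max (D * R ^ 2) N ≤ X) :
    max (p * R) (max s q) ^ 3 ≤ C0 ^ 3 * C1 * X := by
  have hR0 : 0 < R := by linarith
  have h1 : max (p / R ^ 2) (q / R ^ 3) = max (p * R) q / R ^ 3 := by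
    rw [← max_div_div_right (by positivity)]
    congr 1
    field_simp
  have h2 : max (D / R ^ 7) (N / R ^ 9) = max (D * R ^ 2) N / R ^ 9 := by
    rw [← max_div_div_right (by positivity)]
    congr 1
    field_simp
  rw [h1, h2] at hG
  have h3 : max (p * R) q ^ 3 ≤ C1 * max (D * R ^ 2) N := by
    have h4 : (max (p * R) q / R ^ 3) ^ 3 * R ^ 9 ≤ C1 * (max (D * R ^ 2) N / R ^ 9) * R ^ 9 :=
      mul_le_mul_of_nonneg_right hG (by positivity)
    have h5 : (max (p * R) q / R ^ 3) ^ 3 * R ^ 9 = max (p * R) q ^ 3 := by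
      field_simp
    have h6 : C1 * (max (D * R ^ 2) N / R ^ 9) * R ^ 9 = C1 * max (D * R ^ 2) N := by
      field_simp
    rwa [h5, h6] at h4
  have hm0 : 0 ≤ max (p * R) q := le_max_of_le_right hq
  have h7 : max (p * R) (max s q) ≤ C0 * max (p * R) q := by
    refine max_le ?_ (max_le hs ?_)
    · exact (le_max_left _ _).trans (le_mul_of_one_le_left hm0 hC0)
    · exact (le_max_right _ _).trans (le_mul_of_one_le_left hm0 hC0)
  have h8 : 0 ≤ max (p * R) (max s q) := le_max_of_le_left (by positivity)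
  calc max (p * R) (max s q) ^ 3 ≤ (C0 * max (p * R) q) ^ 3 := pow_le_pow_left₀ h8 h7 3
    _ = C0 ^ 3 * max (p * R) q ^ 3 := by ring
    _ ≤ C0 ^ 3 * (C1 * X) := by
        apply mul_le_mul_of_nonneg_left _ (by positivity)
        exact h3.trans (mul_le_mul_of_nonneg_left hX hC1)
    _ = _ := by ring

/-- numbers: the part `T > 1` -/
theorem numB (p q s D N R T t C0 C2 C4 E : ℝ) (hp : 0 ≤ p) (hs0 : 0 ≤ s) (hD : 0 ≤ D)
    (_hN : 0 ≤ N) (hR : 1 ≤ R) (hT : 1 ≤ T) (ht : 1 ≤ t) (hC0 : 1 ≤ C0) (hC2 : 0 ≤ C2)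
    (hC4 : 1 ≤ C4)
    (hE : E ≤ t * max (N / R ^ 9 / T ^ 3) (p / R ^ 2 * (D / R ^ 7) / T ^ 4))
    (hG : max (p / R ^ 2 / T ^ 2) (s / R ^ 3 / T ^ 2) ^ 3 ≤ C2 * max (D / R ^ 7 / T ^ 3) E)
    (hp4 : p / R ^ 2 / T ^ 2 ≤ C4)
    (hq : q ≤ C0 * max (p * R) s) :
    max (p * R) (max s q) ^ 3 ≤ C0 ^ 3 * (C2 * t * C4) * max (D * R ^ 2 * T ^ 4) (N * T ^ 3) := by
  have hR0 : 0 < R := by linarith
  have hT0 : 0 < T := by linarith
  set Y := max (D * R ^ 2 * T ^ 4) (N * T ^ 3) with hY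
  have hY0 : 0 ≤ Y := le_max_of_le_left (by positivity)
  have h1 : max (p / R ^ 2 / T ^ 2) (s / R ^ 3 / T ^ 2) = max (p * R) s / (R ^ 3 * T ^ 2) := by
    rw [← max_div_div_right (by positivity)]
    congr 1
    · field_simp
    · field_simp
  have e1 : D / R ^ 7 / T ^ 3 ≤ t * C4 * (Y / (R ^ 9 * T ^ 6)) := by
    have h2 : D / R ^ 7 / T ^ 3 = D * R ^ 2 * T ^ 3 / (R ^ 9 * T ^ 6) := by field_simp
    have h3 : D * R ^ 2 * T ^ 3 ≤ Y := by
      refine le_trans ?_ (le_max_left _ _)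
      apply mul_le_mul_of_nonneg_left _ (by positivity)
      exact pow_le_pow_right₀ hT (by norm_num)
    rw [h2]
    have h4 : D * R ^ 2 * T ^ 3 / (R ^ 9 * T ^ 6) ≤ Y / (R ^ 9 * T ^ 6) :=
      div_le_div_of_nonneg_right h3 (by positivity)
    refine h4.trans ?_
    exact le_mul_of_one_le_left (by positivity) (one_le_mul_of_one_le_of_one_le ht hC4)
  have e2 : N / R ^ 9 / T ^ 3 ≤ C4 * (Y / (R ^ 9 * T ^ 6)) := by
    have h2 : N / R ^ 9 / T ^ 3 = N * T ^ 3 / (R ^ 9 * T ^ 6) := by field_simp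
    rw [h2]
    have h4 : N * T ^ 3 / (R ^ 9 * T ^ 6) ≤ Y / (R ^ 9 * T ^ 6) :=
      div_le_div_of_nonneg_right (le_max_right _ _) (by positivity)
    refine h4.trans ?_
    exact le_mul_of_one_le_left (by positivity) hC4
  have e3 : p / R ^ 2 * (D / R ^ 7) / T ^ 4 ≤ C4 * (Y / (R ^ 9 * T ^ 6)) := by
    have h2 : p / R ^ 2 * (D / R ^ 7) / T ^ 4 = (p / R ^ 2 / T ^ 2) *
        (D * R ^ 2 * T ^ 4 / (R ^ 9 * T ^ 6)) := by field_simp
    rw [h2]
    apply mul_le_mul hp4 _ (by positivity) (by linarith)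
    exact div_le_div_of_nonneg_right (le_max_left _ _) (by positivity)
  have e4 : E ≤ t * C4 * (Y / (R ^ 9 * T ^ 6)) := by
    refine hE.trans ?_
    rw [mul_assoc]
    exact mul_le_mul_of_nonneg_left (max_le e2 e3) (by linarith)
  have h3 : max (p * R) s ^ 3 ≤ C2 * t * C4 * Y := by
    rw [h1] at hG
    have h4 := hG.trans (mul_le_mul_of_nonneg_left (max_le e1 e4) hC2)
    have h5 : (max (p * R) s / (R ^ 3 * T ^ 2)) ^ 3 * (R ^ 9 * T ^ 6) ≤
        C2 * (t * C4 * (Y / (R ^ 9 * T ^ 6))) * (R ^ 9 * T ^ 6) :=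
      mul_le_mul_of_nonneg_right h4 (by positivity)
    have h6 : (max (p * R) s / (R ^ 3 * T ^ 2)) ^ 3 * (R ^ 9 * T ^ 6) = max (p * R) s ^ 3 := by
      field_simp
    have h7 : C2 * (t * C4 * (Y / (R ^ 9 * T ^ 6))) * (R ^ 9 * T ^ 6) = C2 * t * C4 * Y := by
      field_simp
    rwa [h6, h7] at h5
  have hm0 : 0 ≤ max (p * R) s := le_max_of_le_right hs0
  have h7 : max (p * R) (max s q) ≤ C0 * max (p * R) s := by
    refine max_le ?_ (max_le ?_ hq)
    · exact (le_max_left _ _).trans (le_mul_of_one_le_left hm0 hC0)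
    · exact (le_max_right _ _).trans (le_mul_of_one_le_left hm0 hC0)
  have h8 : 0 ≤ max (p * R) (max s q) := le_max_of_le_left (by positivity)
  calc max (p * R) (max s q) ^ 3 ≤ (C0 * max (p * R) s) ^ 3 := pow_le_pow_left₀ h8 h7 3
    _ = C0 ^ 3 * max (p * R) s ^ 3 := by ring
    _ ≤ C0 ^ 3 * (C2 * t * C4 * Y) := mul_le_mul_of_nonneg_left h3 (by positivity)
    _ = _ := by ring

section loc

variable {K : Type} [Field K] [NumberField K]

/-- the constant of the local inequality -/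
theorem loc (hGEO : S_GEO) (hBDW : S_BDW) (a : Fin 3 → Fin 3 → K) (b : Fin 4 → Fin 4 → K)
    (hNL : NoLine a b) : ∃ C : AbsoluteValue K ℝ → ℝ, Cst C ∧
      ∀ v : AbsoluteValue K ℝ, (v ∈ archAbsVal (K := K) ∨ v ∈ nonarchAbsVal (K := K)) →
        ∀ w t r : K, FF a b w ![1, t] ![1, r] = 0 →
          Gm v a b w t r ^ 3 ≤ C v * max (v (Dx a b w ![1, t] ![1, r]) * max 1 (v r) ^ 2 *
            max 1 (v t) ^ 4) (v (Nx a b w ![1, t] ![1, r]) * max 1 (v t) ^ 3) := by
  obtain ⟨C1, hC1, h1⟩ := hGEO K a b hNL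
  obtain ⟨C2, hC2, h2⟩ := hGEO K (rv a) (rv b) (noLine_rv hNL)
  obtain ⟨C3, hC3, h3⟩ := hBDW K a b
  obtain ⟨C5, hC5, h5⟩ := hBDW K (rv a) (rv b)
  -- the constant for `cw`
  set C4 : AbsoluteValue K ℝ → ℝ := fun v => tc v ^ 5 * (max 1 (v 3) * (C5 v ^ 2 * mat (rv a) v))
    with hC4def
  have hC4 : Cst C4 := cst_mul (cst_pow cst_tc 5) (cst_mul (cst_elt 3)
    (cst_mul (cst_pow hC5 2) (cst_mat _)))
  refine ⟨fun v => (tc v * (C3 v * C5 v)) ^ 3 * (C1 v * (C2 v * (tc v * C4 v))),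
    cst_mul (cst_pow (cst_mul cst_tc (cst_mul hC3 hC5)) 3)
      (cst_mul hC1 (cst_mul hC2 (cst_mul cst_tc hC4))), ?_⟩
  intro v hv w t r hF
  obtain ⟨κ, hκ0, hκ, hy⟩ := nrm v r
  obtain ⟨y, hydef⟩ : ∃ y : Fin 2 → K, y = fun i => (![1, r] : Fin 2 → K) i / κ := ⟨_, rfl⟩
  rw [← hydef] at hy
  obtain ⟨α, hα⟩ : ∃ α : Fin 3 → K, α = ax a ![1, r] := ⟨_, rfl⟩
  obtain ⟨β, hβ⟩ : ∃ β : Fin 4 → K, β = bx b ![1, r] := ⟨_, rfl⟩
  have hax : ax a y = fun i => α i / κ ^ 2 := by rw [hydef, ax_sc a _ κ hκ0, hα]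
  have hbx : bx b y = fun i => β i / κ ^ 3 := by rw [hydef, bx_sc b _ κ hκ0, hβ]
  have hF' : cub α β w ![1, t] = 0 := by rw [hα, hβ]; exact hF
  have hFκ : cub (ax a y) (bx b y) (w / κ) ![1, t] = 0 := by
    rw [hax, hbx, cub_sc α β w κ hκ0, hF', zero_div]
  have ht := tc_one v
  have ht0 : 0 ≤ tc v := zero_le_one.trans ht
  have hc1 := hC1.one_le v
  have hc2 := hC2.one_le v
  have hc3 := hC3.one_le v
  have hc4 := hC4.one_le v
  have hc5 := hC5.one_le v
  have hc35 : 1 ≤ C3 v * C5 v := one_le_mul_of_one_le_of_one_le hc3 hc5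
  have hc0 : 1 ≤ tc v * (C3 v * C5 v) := one_le_mul_of_one_le_of_one_le ht hc35
  have hR : (1 : ℝ) ≤ max 1 (v r) := le_max_left _ _
  have hT : (1 : ℝ) ≤ max 1 (v t) := le_max_left _ _
  have hR0 : (0 : ℝ) < max 1 (v r) := by linarith
  have hy1 := hy.1
  have heul := euler α β w t hF'
  have hGm : Gm v a b w t r = max (v (cw α w ![1, t]) * max 1 (v r))
      (max (v (c0 α β w ![1, t])) (v (c1 α β w ![1, t]))) := by
    rw [hα, hβ]; rfl
  have hDx : Dx a b w ![1, t] ![1, r] = DD α β w ![1, t] := by rw [hα, hβ]; rfl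
  have hNx : Nx a b w ![1, t] ![1, r] = NN α β w ![1, t] := by rw [hα, hβ]; rfl
  rw [hGm, hDx, hNx]
  have hX0 : 0 ≤ max (v (DD α β w ![1, t]) * max 1 (v r) ^ 2 * max 1 (v t) ^ 4)
      (v (NN α β w ![1, t]) * max 1 (v t) ^ 3) :=
    le_max_of_le_left (by have := v.nonneg (DD α β w ![1, t]); positivity)
  by_cases htt : v t ≤ 1
  · -- the part `|t| ≤ 1`
    have hG := h1 v hv (w / κ) t y htt hy hFκ
    unfold Dx Nx at hG
    rw [hax, hbx, cw_sc α w κ hκ0, c1_sc α β w κ hκ0, DD_sc α β w κ hκ0, NN_sc α β w κ hκ0,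
      map_div₀, map_div₀, map_div₀, map_div₀, map_pow, map_pow, map_pow, map_pow, hκ] at hG
    have hw : v w ≤ C3 v * max 1 (v r) := by
      have := h3 v hv (w / κ) ![1, t] y (fun i => by fin_cases i <;> simp [htt]) hy1 hFκ
      rw [map_div₀, hκ, div_le_iff₀ hR0] at this
      exact this
    have hs : v (c0 α β w ![1, t]) ≤ (tc v * (C3 v * C5 v)) *
        max (v (cw α w ![1, t]) * max 1 (v r)) (v (c1 α β w ![1, t])) := by
      have e1 : c0 α β w ![1, t] = -(w * cw α w ![1, t] + t * c1 α β w ![1, t]) := by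
        linear_combination heul
      rw [e1, v.map_neg, mul_assoc]
      apply tc_add_le
      · rw [map_mul]
        calc v w * v (cw α w ![1, t]) ≤ (C3 v * max 1 (v r)) * v (cw α w ![1, t]) :=
              mul_le_mul_of_nonneg_right hw (v.nonneg _)
          _ = C3 v * (v (cw α w ![1, t]) * max 1 (v r)) := by ring
          _ ≤ (C3 v * C5 v) * max (v (cw α w ![1, t]) * max 1 (v r)) (v (c1 α β w ![1, t])) := by
              apply mul_le_mul (le_mul_of_one_le_right (by linarith) hc5) (le_max_left _ _)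
              · have := v.nonneg (cw α w ![1, t])
                positivity
              · linarith
      · rw [map_mul]
        calc v t * v (c1 α β w ![1, t]) ≤ 1 * v (c1 α β w ![1, t]) :=
              mul_le_mul_of_nonneg_right htt (v.nonneg _)
          _ ≤ (C3 v * C5 v) * max (v (cw α w ![1, t]) * max 1 (v r)) (v (c1 α β w ![1, t])) := by
              apply mul_le_mul hc35 (le_max_right _ _) (v.nonneg _)
              linarith
    have hT1 : max 1 (v t) = 1 := max_eq_left htt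
    have := numA (v (cw α w ![1, t])) (v (c1 α β w ![1, t])) (v (c0 α β w ![1, t]))
      (v (DD α β w ![1, t])) (v (NN α β w ![1, t])) (max 1 (v r)) (tc v * (C3 v * C5 v)) (C1 v)
      _ (v.nonneg _) (v.nonneg _) hR hc0 (by linarith) hG hs le_rfl
    refine this.trans ?_
    rw [hT1, one_pow, one_pow, mul_one, mul_one]
    rw [hT1, one_pow, one_pow, mul_one, mul_one] at hX0
    apply mul_le_mul_of_nonneg_right _ hX0
    apply mul_le_mul_of_nonneg_left _ (by positivity)
    apply le_mul_of_one_le_right (by linarith)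
    exact one_le_mul_of_one_le_of_one_le hc2 (one_le_mul_of_one_le_of_one_le ht hc4)
  · -- the part `|t| > 1`
    rw [not_le] at htt
    have ht00 : t ≠ 0 := by
      intro h
      rw [h, map_zero] at htt
      linarith
    have hT1 : max 1 (v t) = v t := max_eq_right htt.le
    have htv : v (1 / t) ≤ 1 := by
      rw [map_div₀, map_one, div_le_one (by linarith)]
      exact htt.le
    have hrva : ax (rv a) y = rv (ax a y) := rfl
    have hrvb : bx (rv b) y = rv (bx b y) := rfl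
    have hFr : FF (rv a) (rv b) (w / κ / t) ![1, 1 / t] y = 0 := by
      unfold FF
      rw [hrva, hrvb, cub_rv _ _ _ _ ht00, hFκ, zero_div]
    have hG := h2 v hv (w / κ / t) (1 / t) y htv hy hFr
    have hx1 : ∀ i, v ((![1, 1 / t] : Fin 2 → K) i) ≤ 1 := by
      intro i
      fin_cases i
      · simp
      · exact htv
    have hw' := h5 v hv (w / κ / t) ![1, 1 / t] y hx1 hy1 hFr
    have hw : v w ≤ C5 v * (max 1 (v r) * max 1 (v t)) := by
      have h := hw'
      rw [map_div₀, map_div₀, hκ, div_div, div_le_iff₀ (by positivity)] at h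
      rw [hT1]
      exact h
    -- the bound for `cw`
    have hcw4 : v (cw (rv (ax a y)) (w / κ / t) ![1, 1 / t]) ≤ C4 v := by
      unfold cw
      have e1 : v (q2 (rv (ax a y)) ![1, 1 / t]) ≤ tc v ^ 2 * (tc v ^ 2 * mat (rv a) v) :=
        q2_le v _ _ _ (fun i => ax_le v (rv a) y hy1 i) hx1
      have hm := (cst_mat (rv a)).one_le v
      have h31 : (1 : ℝ) ≤ max 1 (v 3) := le_max_left _ _
      have h52 : 1 ≤ C5 v ^ 2 := one_le_pow₀ hc5
      have e2 : v (3 * (w / κ / t) ^ 2) ≤ tc v ^ 4 * (max 1 (v 3) * (C5 v ^ 2 * mat (rv a) v)) := by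
        rw [map_mul, map_pow]
        calc v 3 * v (w / κ / t) ^ 2 ≤ max 1 (v 3) * C5 v ^ 2 :=
              mul_le_mul (le_max_right _ _) (pow_le_pow_left₀ (v.nonneg _) hw' 2)
                (by have := v.nonneg (w / κ / t); positivity) (by linarith)
          _ ≤ max 1 (v 3) * (C5 v ^ 2 * mat (rv a) v) :=
              mul_le_mul_of_nonneg_left (le_mul_of_one_le_right (by positivity) hm) (by linarith)
          _ ≤ _ := le_mul_of_one_le_left (by positivity) (one_le_pow₀ ht)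
      have e3 : v (q2 (rv (ax a y)) ![1, 1 / t]) ≤
          tc v ^ 4 * (max 1 (v 3) * (C5 v ^ 2 * mat (rv a) v)) := by
        refine e1.trans ?_
        have e4 : tc v ^ 2 * (tc v ^ 2 * mat (rv a) v) = tc v ^ 4 * mat (rv a) v := by ring
        rw [e4]
        apply mul_le_mul_of_nonneg_left _ (by positivity)
        calc mat (rv a) v ≤ C5 v ^ 2 * mat (rv a) v := le_mul_of_one_le_left (by linarith) h52
          _ ≤ _ := le_mul_of_one_le_left (by positivity) h31
      have e5 := tc_add_le v _ _ _ e2 e3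
      calc _ ≤ _ := e5
        _ = C4 v := by rw [hC4def]; ring
    have hcwv : v (cw (rv (ax a y)) (w / κ / t) ![1, 1 / t]) =
        v (cw α w ![1, t]) / max 1 (v r) ^ 2 / max 1 (v t) ^ 2 := by
      rw [cw_rv _ _ _ ht00, hax, cw_sc α w κ hκ0, map_div₀, map_div₀, map_pow, map_pow, hκ, hT1]
    rw [hcwv] at hcw4
    unfold Dx Nx at hG
    rw [hrva, hrvb, hcwv, c1_rv _ _ _ _ ht00, DD_rv _ _ _ _ ht00 hFκ, NN_rv _ _ _ _ ht00 hFκ,
      hax, hbx, cw_sc α w κ hκ0, c0_sc α β w κ hκ0, DD_sc α β w κ hκ0, NN_sc α β w κ hκ0] at hG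
    have g1 : v (c0 α β w ![1, t] / κ ^ 3 / t ^ 2) =
        v (c0 α β w ![1, t]) / max 1 (v r) ^ 3 / max 1 (v t) ^ 2 := by
      rw [map_div₀, map_div₀, map_pow, map_pow, hκ, hT1]
    have g2 : v (DD α β w ![1, t] / κ ^ 7 / t ^ 3) =
        v (DD α β w ![1, t]) / max 1 (v r) ^ 7 / max 1 (v t) ^ 3 := by
      rw [map_div₀, map_div₀, map_pow, map_pow, hκ, hT1]
    rw [g1, g2] at hG
    have g3 : v (-(NN α β w ![1, t] / κ ^ 9) / t ^ 3 +
        cw α w ![1, t] / κ ^ 2 * (DD α β w ![1, t] / κ ^ 7) / t ^ 4) ≤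
        tc v * max (v (NN α β w ![1, t]) / max 1 (v r) ^ 9 / max 1 (v t) ^ 3)
          (v (cw α w ![1, t]) / max 1 (v r) ^ 2 * (v (DD α β w ![1, t]) / max 1 (v r) ^ 7) /
            max 1 (v t) ^ 4) := by
      have h := tc_add v (-(NN α β w ![1, t] / κ ^ 9) / t ^ 3)
        (cw α w ![1, t] / κ ^ 2 * (DD α β w ![1, t] / κ ^ 7) / t ^ 4)
      have k1 : v (-(NN α β w ![1, t] / κ ^ 9) / t ^ 3) =
          v (NN α β w ![1, t]) / max 1 (v r) ^ 9 / max 1 (v t) ^ 3 := by
        rw [map_div₀, v.map_neg, map_div₀, map_pow, map_pow, hκ, hT1]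
      have k2 : v (cw α w ![1, t] / κ ^ 2 * (DD α β w ![1, t] / κ ^ 7) / t ^ 4) =
          v (cw α w ![1, t]) / max 1 (v r) ^ 2 * (v (DD α β w ![1, t]) / max 1 (v r) ^ 7) /
            max 1 (v t) ^ 4 := by
        rw [map_div₀, map_mul, map_div₀, map_div₀, map_pow, map_pow, map_pow, hκ, hT1]
      rw [k1, k2] at h
      exact h
    have hq : v (c1 α β w ![1, t]) ≤ (tc v * (C3 v * C5 v)) *
        max (v (cw α w ![1, t]) * max 1 (v r)) (v (c0 α β w ![1, t])) := by
      have e1 : t * c1 α β w ![1, t] = -(w * cw α w ![1, t] + c0 α β w ![1, t]) := by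
        linear_combination heul
      have e2 : v t * v (c1 α β w ![1, t]) = v (w * cw α w ![1, t] + c0 α β w ![1, t]) := by
        rw [← map_mul, e1, v.map_neg]
      have e3 : v (w * cw α w ![1, t] + c0 α β w ![1, t]) ≤
          tc v * ((C3 v * C5 v * v t) *
            max (v (cw α w ![1, t]) * max 1 (v r)) (v (c0 α β w ![1, t]))) := by
        apply tc_add_le
        · rw [map_mul]
          calc v w * v (cw α w ![1, t]) ≤
                (C5 v * (max 1 (v r) * max 1 (v t))) * v (cw α w ![1, t]) :=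
                mul_le_mul_of_nonneg_right hw (v.nonneg _)
            _ = (C5 v * v t) * (v (cw α w ![1, t]) * max 1 (v r)) := by rw [hT1]; ring
            _ ≤ _ := by
                apply mul_le_mul _ (le_max_left _ _)
                · have := v.nonneg (cw α w ![1, t])
                  positivity
                · positivity
                · apply mul_le_mul_of_nonneg_right _ (v.nonneg _)
                  exact le_mul_of_one_le_left (by linarith) hc3
        · calc v (c0 α β w ![1, t]) = 1 * v (c0 α β w ![1, t]) := (one_mul _).symm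
            _ ≤ _ := by
                apply mul_le_mul _ (le_max_right _ _) (v.nonneg _) (by positivity)
                exact one_le_mul_of_one_le_of_one_le hc35 htt.le
      rw [← e2] at e3
      have e4 : v t * v (c1 α β w ![1, t]) ≤ v t * ((tc v * (C3 v * C5 v)) *
          max (v (cw α w ![1, t]) * max 1 (v r)) (v (c0 α β w ![1, t]))) := by
        refine e3.trans (le_of_eq ?_)
        ring
      exact le_of_mul_le_mul_left e4 (by linarith)
    have := numB (v (cw α w ![1, t])) (v (c1 α β w ![1, t])) (v (c0 α β w ![1, t]))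
      (v (DD α β w ![1, t])) (v (NN α β w ![1, t])) (max 1 (v r)) (max 1 (v t)) (tc v)
      (tc v * (C3 v * C5 v)) (C2 v) (C4 v) _ (v.nonneg _) (v.nonneg _) (v.nonneg _)
      (v.nonneg _) hR hT ht hc0 (by linarith) hc4 g3 hG hcw4 hq
    refine this.trans ?_
    apply mul_le_mul_of_nonneg_right _ hX0
    apply mul_le_mul_of_nonneg_left _ (by positivity)
    have e1 : C2 v * tc v * C4 v = C2 v * (tc v * C4 v) := by ring
    rw [e1]
    apply le_mul_of_one_le_left _ hc1
    positivity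

end loc

/-- **STR** -/
theorem str' (h1 : S_LIS) (h2 : S_GEO) (h3 : S_BDW) : S_STR := by
  intro K _ _ a b hNL
  obtain ⟨C, hC, hloc⟩ := loc h2 h3 a b hNL
  obtain ⟨C', hC', hlis⟩ := h1 K a b
  refine ⟨fun v => C v * C' v, cst_mul hC hC', ?_⟩
  intro w t r n hn hF hFw hTF
  have hn1 : (1 : ℝ) ≤ (n : ℝ) ^ 2 := by
    have : (1 : ℝ) ≤ n := by exact_mod_cast Nat.one_le_iff_ne_zero.2 hn
    nlinarith
  by_cases hD : Dx a b w ![1, t] ![1, r] = 0
  · -- the flexes
    have key : ∀ v : AbsoluteValue K ℝ, (v ∈ archAbsVal (K := K) ∨ v ∈ nonarchAbsVal (K := K)) →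
        Gm v a b w t r ^ 3 ≤ C v * (v (Nx a b w ![1, t] ![1, r]) * max 1 (v t) ^ 3) := by
      intro v hv
      have h := hloc v hv w t r hF
      rw [hD, map_zero, zero_mul, zero_mul] at h
      rwa [max_eq_right] at h
      have := v.nonneg (Nx a b w ![1, t] ![1, r])
      positivity
    have hpos : ∀ v : AbsoluteValue K ℝ, 0 < Gm v a b w t r := by
      intro v
      refine lt_of_lt_of_le ?_ (le_max_left _ _)
      have : 0 < v (Fw a w ![1, t] ![1, r]) := v.pos hFw
      positivity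
    have key2 : ∀ v : AbsoluteValue K ℝ, (v ∈ archAbsVal (K := K) ∨ v ∈ nonarchAbsVal (K := K)) →
        Gm v a b w t r ^ 3 ≤ C v * C' v * v (Nx a b w ![1, t] ![1, r]) * max 1 (v t) ^ 4 *
          max 1 (v r) ^ 2 := by
      intro v hv
      refine (key v hv).trans ?_
      have g1 := hC.one_le v
      have g2 := hC'.one_le v
      have g3 := v.nonneg (Nx a b w ![1, t] ![1, r])
      have g4 : (1 : ℝ) ≤ max 1 (v t) := le_max_left _ _
      have g5 : (1 : ℝ) ≤ max 1 (v r) ^ 2 := one_le_pow₀ (le_max_left _ _)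
      have g6 : max 1 (v t) ^ 3 ≤ max 1 (v t) ^ 4 := pow_le_pow_right₀ g4 (by norm_num)
      calc C v * (v (Nx a b w ![1, t] ![1, r]) * max 1 (v t) ^ 3) ≤
            (C v * C' v) * (v (Nx a b w ![1, t] ![1, r]) * max 1 (v t) ^ 4) := by
            apply mul_le_mul (le_mul_of_one_le_right (by linarith) g2)
              (mul_le_mul_of_nonneg_left g6 g3) (by positivity) (by positivity)
        _ ≤ (C v * C' v) * (v (Nx a b w ![1, t] ![1, r]) * max 1 (v t) ^ 4) * max 1 (v r) ^ 2 :=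
            le_mul_of_one_le_right (by positivity) g5
        _ = _ := by ring
    refine ⟨Nx a b w ![1, t] ![1, r], ?_, ?_, ?_⟩
    · intro h0
      obtain ⟨v, hv⟩ : ∃ v : AbsoluteValue K ℝ, v ∈ archAbsVal (K := K) := by
        obtain ⟨p⟩ := (inferInstance : Nonempty (NumberField.InfinitePlace K))
        exact ⟨p.val, NumberField.mem_multisetInfinitePlace.2 p.isInfinitePlace⟩
      have h := key v (Or.inl hv)
      rw [h0, map_zero, zero_mul, mul_zero] at h
      have := pow_pos (hpos v) 3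
      linarith
    · intro v hv
      refine (key2 v (Or.inl hv)).trans ?_
      have g1 := hC.one_le v
      have g2 := hC'.one_le v
      have g3 := v.nonneg (Nx a b w ![1, t] ![1, r])
      have g7 : C v * C' v * v (Nx a b w ![1, t] ![1, r]) * max 1 (v t) ^ 4 * max 1 (v r) ^ 2 ≤
          (C v * C' v * v (Nx a b w ![1, t] ![1, r]) * max 1 (v t) ^ 4 * max 1 (v r) ^ 2) *
            (n : ℝ) ^ 2 := le_mul_of_one_le_right (by positivity) hn1
      refine g7.trans (le_of_eq ?_)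
      ring
    · intro v hv
      exact key2 v (Or.inr hv)
  · have hTor := hTF.resolve_left hD
    obtain ⟨ha, hna⟩ := hlis w t r n hn hF hFw hTor
    have key : ∀ v : AbsoluteValue K ℝ, (v ∈ archAbsVal (K := K) ∨ v ∈ nonarchAbsVal (K := K)) →
        ∀ m : ℝ, 1 ≤ m → v (Nx a b w ![1, t] ![1, r]) ≤
          C' v * m * v (Dx a b w ![1, t] ![1, r]) * max 1 (v t) * max 1 (v r) ^ 2 →
        Gm v a b w t r ^ 3 ≤ C v * C' v * m * v (Dx a b w ![1, t] ![1, r]) * max 1 (v t) ^ 4 *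
          max 1 (v r) ^ 2 := by
      intro v hv m hm hle
      refine (hloc v hv w t r hF).trans ?_
      have g1 := hC.one_le v
      have g2 := hC'.one_le v
      have g3 := v.nonneg (Dx a b w ![1, t] ![1, r])
      have g8 : max (v (Dx a b w ![1, t] ![1, r]) * max 1 (v r) ^ 2 * max 1 (v t) ^ 4)
          (v (Nx a b w ![1, t] ![1, r]) * max 1 (v t) ^ 3) ≤
          C' v * m * (v (Dx a b w ![1, t] ![1, r]) * max 1 (v t) ^ 4 * max 1 (v r) ^ 2) := by
        apply max_le
        · have : v (Dx a b w ![1, t] ![1, r]) * max 1 (v r) ^ 2 * max 1 (v t) ^ 4 =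
            v (Dx a b w ![1, t] ![1, r]) * max 1 (v t) ^ 4 * max 1 (v r) ^ 2 := by ring
          rw [this]
          exact le_mul_of_one_le_left (by positivity) (one_le_mul_of_one_le_of_one_le g2 hm)
        · calc v (Nx a b w ![1, t] ![1, r]) * max 1 (v t) ^ 3 ≤
                (C' v * m * v (Dx a b w ![1, t] ![1, r]) * max 1 (v t) * max 1 (v r) ^ 2) *
                  max 1 (v t) ^ 3 := mul_le_mul_of_nonneg_right hle (by positivity)
            _ = _ := by ring
      refine (mul_le_mul_of_nonneg_left g8 (by linarith)).trans (le_of_eq ?_)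
      ring
    refine ⟨Dx a b w ![1, t] ![1, r], hD, ?_, ?_⟩
    · intro v hv
      exact key v (Or.inl hv) _ hn1 (ha v hv)
    · intro v hv
      have := key v (Or.inr hv) 1 le_rfl (by rw [mul_one]; exact hna v hv)
      rw [mul_one] at this
      exact this

/-- **STR** -/
theorem str (h1 : S_LIS) (h2 : S_GEO) : S_STR := str' h1 h2 bdw

end Pool.Agent.H31.TK
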